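import Pool.Agent.Y391.OB.Alg
import Pool.Agent.Y174.OB.Stm2
import Pool.Agent.Y174.B2
import Pool.Agent.Y174.B4
import Pool.Agent.Y174.Main1

/-! Norms of multivalued orbifold 1-forms are orbifold symmetric differentials. -/

set_option autoImplicit false
set_option linter.overlappingInstances false
set_option linter.unusedSectionVars false
set_option maxHeartbeats 400000

open FF IntermediateField Pool.Agent.W619.PQ Pool.Agent.W619.PL Pool.Agent.W619.TW
  Pool.Agent.W603.LV Pool.Agent.W619.Y Pool.Agent.W824.PG Pool.Agent.Y174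

namespace Pool.Agent.Y391.OB

section

variable {k K M : Type} [Field k] [CharZero k] [Field K] [Field M] [Algebra k K] [Algebra k M]
  [Algebra K M] [IsScalarTower k K M] [FiniteDimensional K M] [IsGalois K M]

/-- places of finite Galois extensions -/
theorem exists_liesOn (v : Place k K) : ∃ (w : Place k M) (e : ℕ), LiesOn w v e := by
  have hGf : Finite (gal k K M) := gal_finite
  obtain ⟨w, e, I, hwv, -, -⟩ := exists_inertia (gal k K M)
    (plc (eqv (k := k) (K := K) (L := M)).symm v)
  refine ⟨w, e, hwv.1, fun f => ?_⟩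
  have h1 := hwv.2 (eqv (k := k) (K := K) (L := M) f)
  have h2 : (plc (eqv (k := k) (K := K) (L := M)).symm v).ord
      (eqv (k := k) (K := K) (L := M) f) = v.ord f := by
    change v.ord ((eqv (k := k) (K := K) (L := M)).symm (eqv (k := k) (K := K) (L := M) f)) = _
    rw [AlgEquiv.symm_apply_apply]
  rw [h2] at h1
  exact h1

theorem conj_lies {v : Place k K} {w : Place k M} {e : ℕ} (h : LiesOn w v e) (g : M ≃ₐ[K] M) :
    LiesOn (w.comp (g.restrictScalars k)) v e := by
  refine ⟨h.1, fun f => ?_⟩
  rw [Place.comp_ord]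
  change w.ord (g (algebraMap K M f)) = _
  rw [g.commutes]
  exact h.2 f

theorem geR_add {w : Place k M} {c : ℝ} {a b : M} (ha : GeR w c a) (hb : GeR w c b) :
    GeR w c (a + b) := by
  have h1 := GeR.sum (w := w) (Finset.univ : Finset (Fin 2)) c ![a, b] (by
    intro i _
    fin_cases i
    · exact ha
    · exact hb)
  rw [Fin.sum_univ_two] at h1
  exact h1

/-- coefficients of products of linear polynomials -/
theorem coeff_ge {w : Place k M} {θ : ℝ} {G : Type} (s : Finset G) (x y : G → M)
    (hx : ∀ g ∈ s, GeR w (-θ) (x g)) (hy : ∀ g ∈ s, GeR w 0 (y g)) (i : ℕ) :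
    GeR w (-(i * θ))
      ((∏ g ∈ s, (Polynomial.C (x g) * Polynomial.X + Polynomial.C (y g))).coeff i) := by
  classical
  induction s using Finset.induction_on generalizing i with
  | empty =>
    rw [Finset.prod_empty, Polynomial.coeff_one]
    split_ifs with h
    · right
      rw [w.ord_one, h]
      simp
    · exact Or.inl rfl
  | insert g s hg ih =>
    have ih' := ih (fun g hg => hx g (Finset.mem_insert_of_mem hg))
      (fun g hg => hy g (Finset.mem_insert_of_mem hg))
    rw [Finset.prod_insert hg, add_mul, mul_assoc, Polynomial.coeff_add, Polynomial.coeff_C_mul,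
      Polynomial.coeff_C_mul]
    refine geR_add ?_ ?_
    · rcases i with _ | i
      · rw [Polynomial.coeff_X_mul_zero, mul_zero]
        exact Or.inl rfl
      · rw [Polynomial.coeff_X_mul]
        refine ((hx g (Finset.mem_insert_self _ _)).mul (ih' i)).mono (le_of_eq ?_)
        push_cast
        ring
    · refine ((hy g (Finset.mem_insert_self _ _)).mul (ih' i)).mono (le_of_eq ?_)
      ring

theorem eval_norm (ξ : Derivation k K K →ₗ[K] M) {r : ℕ} (D : Fin r → Derivation k K K)
    (p : MvPolynomial (Fin r) K)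
    (hp : MvPolynomial.map (algebraMap K M) p =
      ∏ g : M ≃ₐ[K] M, ∑ i, MvPolynomial.C (g (ξ (D i))) * MvPolynomial.X i) (a : Fin r → K) :
    Algebra.norm K (ξ (∑ i, a i • D i)) = MvPolynomial.eval a p := by
  apply (algebraMap K M).injective
  rw [norm_prod]
  have h1 : algebraMap K M (MvPolynomial.eval a p) =
      MvPolynomial.eval (fun i => algebraMap K M (a i)) (MvPolynomial.map (algebraMap K M) p) := by
    rw [MvPolynomial.eval_map]
    exact MvPolynomial.eval₂_comp_left (algebraMap K M) (RingHom.id K) a p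
  rw [h1, hp, map_prod]
  refine Finset.prod_congr rfl fun g _ => ?_
  rw [map_sum, map_sum, map_sum]
  refine Finset.sum_congr rfl fun i _ => ?_
  rw [map_smul, Algebra.smul_def, map_mul, g.commutes, map_mul, MvPolynomial.eval_C,
    MvPolynomial.eval_X, mul_comm]

/-- the norm of a multivalued form is a symmetric differential -/
theorem sym_diff (ξ : Derivation k K K →ₗ[K] M) :
    IsSymDiff (Module.finrank K M) (fun D => Algebra.norm K (ξ D)) := by
  intro r D
  obtain ⟨p, hp, hp2⟩ := mv_norm (K := K) fun i => ξ (D i)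
  exact ⟨p, hp, fun a => eval_norm ξ D p hp2 a⟩

/-- the norm of an orbifold form is an orbifold symmetric differential -/
theorem sym_orb {n : ℕ} {δ : Place k K → ℝ} (ξ : Derivation k K K →ₗ[K] M)
    (h : OrbForm n δ ξ) : SymOrb n δ (fun D => Algebra.norm K (ξ D)) := by
  intro v hv D E hD hE
  obtain ⟨p, hp⟩ := up_norm (K := K) (ξ D) (ξ E)
  obtain ⟨w, e, hwv⟩ := exists_liesOn (M := M) v
  refine ⟨p, fun x => ?_, fun i => ?_⟩
  · apply (algebraMap K M).injective
    rw [norm_prod, ← Polynomial.eval₂_hom, ← Polynomial.eval_map, hp, Polynomial.eval_prod]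
    refine Finset.prod_congr rfl fun g _ => ?_
    rw [Polynomial.eval_add, Polynomial.eval_mul, Polynomial.eval_C, Polynomial.eval_X,
      Polynomial.eval_C, map_add, map_smul, Algebra.smul_def, map_add, map_mul, g.commutes]
    ring
  · have h1 : GeR w (e * (-(i * δ v))) (algebraMap K M (p.coeff i)) := by
      rw [← Polynomial.coeff_map, hp]
      have h2 := coeff_ge (w := w) (θ := e * δ v) Finset.univ (fun g : M ≃ₐ[K] M => g (ξ D))
        (fun g => g (ξ E)) (fun g _ => ?_) (fun g _ => ?_) i
      · refine h2.mono (le_of_eq ?_)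
        ring
      · have h3 : GeR (w.comp (g.restrictScalars k)) (-(e * δ v)) (ξ D) :=
          (h v (w.comp (g.restrictScalars k)) e hv (conj_lies hwv g) D).1 hD
        exact GeR.comp.1 h3
      · have h3 : Ge (w.comp (g.restrictScalars k)) 0 (ξ E) :=
          (h v (w.comp (g.restrictScalars k)) e hv (conj_lies hwv g) E).2 hE
        have h4 := GeR.comp.1 (Ge.toR h3)
        rw [Int.cast_zero] at h4
        exact h4
    exact GeR.down hwv h1

/-- combinations of orbifold forms with constant coefficients -/
theorem orb_comb {n : ℕ} {δ : Place k K → ℝ} (ω : Fin n → (Derivation k K K →ₗ[K] M))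
    (h : ∀ i, OrbForm n δ (ω i)) (a : Fin n → k) (ξ : Derivation k K K →ₗ[K] M)
    (hξ : ∀ D, ξ D = ∑ i, algebraMap k M (a i) * ω i D) : OrbForm n δ ξ := by
  intro v w e hv hwv D
  refine ⟨fun hD => ?_, fun hD => ?_⟩
  · rw [hξ]
    refine GeR.sum (w := w) Finset.univ (-(e * δ v)) _ fun i _ => ?_
    have h1 : GeR w (-(e * δ v)) (ω i D) := (h i v w e hv hwv D).1 hD
    have h2 : Ge w 0 (algebraMap k M (a i)) := w.reg_const (a i)
    refine ((Ge.toR h2).mul h1).mono (le_of_eq ?_)
    rw [Int.cast_zero, zero_add]
  · rw [hξ]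
    have h0 : Ge w 0 (∑ i, algebraMap k M (a i) * ω i D) := by
      refine Ge.sum _ _ fun i _ => ?_
      exact w.reg_mul (w.reg_const (a i)) ((h i v w e hv hwv D).2 hD)
    exact h0

/-- independent vector fields span -/
theorem span_der {n : ℕ} (htr : Algebra.trdeg k K = n) (E : Fin n → Derivation k K K)
    (hE : LinearIndependent K E) : Submodule.span K (Set.range E) = ⊤ := by
  obtain ⟨y, hy⟩ := Pool.Agent.W636.PG.exists_basis k K n htr
  obtain ⟨F, hF⟩ := Pool.Agent.W636.PG.exists_duals k K n y hy
  have hexp : ∀ D : Derivation k K K, ∑ j, D (y j) • F j = D :=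
    fun D => Pool.Agent.W73.PG.PULL.expand y hy F hF D
  let e : Derivation k K K →ₗ[K] (Fin n → K) :=
    { toFun := fun D j => D (y j)
      map_add' := fun D D' => rfl
      map_smul' := fun c D => rfl }
  have he : Function.Injective e := by
    intro D D' h
    rw [← hexp D, ← hexp D']
    refine Finset.sum_congr rfl fun j _ => ?_
    have h1 : D (y j) = D' (y j) := congrFun h j
    rw [h1]
  have hfd : FiniteDimensional K (Derivation k K K) := FiniteDimensional.of_injective e he
  have h1 : Module.finrank K (Derivation k K K) ≤ n := by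
    have := LinearMap.finrank_le_finrank_of_injective he
    rwa [Module.finrank_fin_fun] at this
  have h2 : n ≤ Module.finrank K (Derivation k K K) := by
    have := hE.fintype_card_le_finrank
    rwa [Fintype.card_fin] at this
  refine hE.span_eq_top_of_card_eq_finrank' ?_
  rw [Fintype.card_fin]
  exact le_antisymm h2 h1

end

/-- The norms of multivalued orbifold 1-forms are orbifold symmetric differentials without common
zeros. -/
theorem t_CONV : Pool.Agent.Y174.OB.S_CONV := by
  intro k K _ _ _ _ _ hess n htr M _ _ δ ω hω horb E hE c hc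
  have hspan := span_der htr E hE
  have hdet := mat_ne E hspan ω hω
  obtain ⟨a, ha⟩ := exists_const (k := k)
    (fun (g : M ≃ₐ[K] M) i => ∑ j, M.val (g (ω i (E j))) * c j)
    (fun g => conj_ne M.val _ hdet c hc g)
  let ξ : Derivation k K K →ₗ[K] M := ∑ i, algebraMap k M (a i) • ω i
  have hξ : ∀ D, ξ D = ∑ i, algebraMap k M (a i) * ω i D := by
    intro D
    change (∑ i, algebraMap k M (a i) • ω i) D = _
    rw [LinearMap.sum_apply]
    rfl
  obtain ⟨p, hp, hp2⟩ := mv_norm (K := K) fun i => ξ (E i)
  refine ⟨fun D => Algebra.norm K (ξ D), p, sym_diff ξ, sym_orb ξ (orb_comb ω horb a ξ hξ),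
    fun b => eval_norm ξ E p hp2 b, ?_⟩
  have h1 : MvPolynomial.aeval c p = ∏ g : M ≃ₐ[K] M, ∑ i, M.val (g (ξ (E i))) * c i := by
    have h2 : algebraMap K (AlgebraicClosure K) = (M.val : M →+* AlgebraicClosure K).comp
        (algebraMap K M) := rfl
    rw [MvPolynomial.aeval_def, ← MvPolynomial.eval_map, h2, ← MvPolynomial.map_map, hp2,
      map_prod, map_prod]
    refine Finset.prod_congr rfl fun g _ => ?_
    rw [map_sum, map_sum]
    refine Finset.sum_congr rfl fun i _ => ?_
    rw [map_mul, map_mul, MvPolynomial.map_C, MvPolynomial.map_X, MvPolynomial.eval_C,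
      MvPolynomial.eval_X]
    rfl
  rw [h1]
  refine Finset.prod_ne_zero_iff.2 fun g _ => ?_
  have h2 : ∑ j, M.val (g (ξ (E j))) * c j =
      ∑ i, algebraMap k (AlgebraicClosure K) (a i) * ∑ j, M.val (g (ω i (E j))) * c j := by
    have h3 : ∀ i, g (algebraMap k M (a i)) = algebraMap k M (a i) := by
      intro i
      rw [IsScalarTower.algebraMap_apply k K M, g.commutes]
    have h4 : ∀ j, M.val (g (ξ (E j))) * c j =
        ∑ i, algebraMap k (AlgebraicClosure K) (a i) * (M.val (g (ω i (E j))) * c j) := by
      intro j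
      rw [hξ, map_sum, map_sum, Finset.sum_mul]
      refine Finset.sum_congr rfl fun i _ => ?_
      rw [map_mul, h3, map_mul, mul_assoc]
      rfl
    rw [Finset.sum_congr rfl fun j _ => h4 j, Finset.sum_comm]
    exact Finset.sum_congr rfl fun i _ => (Finset.mul_sum _ _ _).symm
  rw [h2]
  exact ha g

end Pool.Agent.Y391.OB
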