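import Mathlib

/-! Norms of linear forms: descent of polynomials, and linear algebra. -/

set_option autoImplicit false

namespace Pool.Agent.Y391.OB

section

variable {K M : Type} [Field K] [Field M] [Algebra K M] [FiniteDimensional K M] [IsGalois K M]

/-- descent of polynomials in several variables -/
theorem desc_mv {σ : Type} (P : MvPolynomial σ M)
    (h : ∀ g : M ≃ₐ[K] M, MvPolynomial.map (g : M →+* M) P = P) :
    ∃ p : MvPolynomial σ K, MvPolynomial.map (algebraMap K M) p = P := by
  have h1 : P ∈ Set.range (MvPolynomial.map (algebraMap K M)) := by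
    rw [MvPolynomial.mem_range_map_iff_coeffs_subset]
    intro c hc
    obtain ⟨e, -, rfl⟩ := MvPolynomial.mem_coeffs_iff.1 (Finset.mem_coe.1 hc)
    refine (IsGalois.mem_range_algebraMap_iff_fixed _).2 fun g => ?_
    have h2 := congrArg (MvPolynomial.coeff e) (h g)
    rw [MvPolynomial.coeff_map] at h2
    exact h2
  exact h1

/-- descent of polynomials in one variable -/
theorem desc_up (P : Polynomial M)
    (h : ∀ g : M ≃ₐ[K] M, P.map (g : M →+* M) = P) :
    ∃ p : Polynomial K, p.map (algebraMap K M) = P := by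
  have h1 : P ∈ Polynomial.lifts (algebraMap K M) := by
    rw [Polynomial.lifts_iff_coeff_lifts]
    intro i
    refine (IsGalois.mem_range_algebraMap_iff_fixed _).2 fun g => ?_
    have h2 := congrArg (fun q => Polynomial.coeff q i) (h g)
    simp only [Polynomial.coeff_map] at h2
    exact h2
  exact (Polynomial.mem_lifts P).1 h1

/-- the norm of a linear form in several variables -/
theorem mv_norm {r : ℕ} (x : Fin r → M) :
    ∃ p : MvPolynomial (Fin r) K, p.IsHomogeneous (Module.finrank K M) ∧
      MvPolynomial.map (algebraMap K M) p =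
        ∏ g : M ≃ₐ[K] M, ∑ i, MvPolynomial.C (g (x i)) * MvPolynomial.X i := by
  obtain ⟨p, hp⟩ := desc_mv (K := K)
    (∏ g : M ≃ₐ[K] M, ∑ i, MvPolynomial.C (g (x i)) * MvPolynomial.X i) (fun h => by
      rw [map_prod]
      refine Fintype.prod_equiv (Equiv.mulLeft h) _ _ fun g => ?_
      rw [map_sum]
      refine Finset.sum_congr rfl fun i _ => ?_
      rw [map_mul, MvPolynomial.map_C, MvPolynomial.map_X]
      rfl)
  refine ⟨p, ?_, hp⟩
  refine MvPolynomial.IsHomogeneous.of_map (f := algebraMap K M) (algebraMap K M).injective ?_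
  rw [hp]
  have h1 := MvPolynomial.IsHomogeneous.prod (Finset.univ : Finset (M ≃ₐ[K] M))
    (fun g => ∑ i, MvPolynomial.C (g (x i)) * MvPolynomial.X i) (fun _ => 1) (fun g _ =>
      MvPolynomial.IsHomogeneous.sum _ _ _ fun i _ => MvPolynomial.isHomogeneous_C_mul_X _ _)
  have h2 : ∑ _g : M ≃ₐ[K] M, 1 = Module.finrank K M := by
    rw [Finset.sum_const, smul_eq_mul, mul_one, Finset.card_univ, ← Nat.card_eq_fintype_card]
    exact IsGalois.card_aut_eq_finrank K M
  rw [h2] at h1
  exact h1

/-- the norm of a linear polynomial in one variable -/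
theorem up_norm (x y : M) :
    ∃ p : Polynomial K, p.map (algebraMap K M) =
      ∏ g : M ≃ₐ[K] M, (Polynomial.C (g x) * Polynomial.X + Polynomial.C (g y)) := by
  refine desc_up _ fun h => ?_
  rw [Polynomial.map_prod]
  refine Fintype.prod_equiv (Equiv.mulLeft h) _ _ fun g => ?_
  rw [Polynomial.map_add, Polynomial.map_mul, Polynomial.map_C, Polynomial.map_X,
    Polynomial.map_C]
  rfl

theorem norm_prod (z : M) : algebraMap K M (Algebra.norm K z) = ∏ g : M ≃ₐ[K] M, g z :=
  Algebra.norm_eq_prod_automorphisms K z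

/-- The matrix of independent forms on a basis. -/
theorem mat_ne {V : Type} [AddCommGroup V] [Module K V] {n : ℕ} (E : Fin n → V)
    (hspan : Submodule.span K (Set.range E) = ⊤) (ω : Fin n → (V →ₗ[K] M))
    (hω : LinearIndependent M ω) : (Matrix.of fun i j => ω i (E j)).det ≠ 0 := by
  intro h
  obtain ⟨b, hb, hb0⟩ := Matrix.exists_vecMul_eq_zero_iff.2 h
  apply hb
  rw [Fintype.linearIndependent_iff] at hω
  funext i
  refine hω b ?_ i
  refine LinearMap.ext_on hspan ?_
  rintro _ ⟨j, rfl⟩
  have h1 := congrFun hb0 j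
  rw [LinearMap.sum_apply, LinearMap.zero_apply]
  exact h1

/-- The conjugates of an independent system have no common zero. -/
theorem conj_ne {Ω : Type} [Field Ω] [Algebra K Ω] (ι : M →ₐ[K] Ω) {n : ℕ}
    (A : Matrix (Fin n) (Fin n) M) (hA : A.det ≠ 0) (c : Fin n → Ω) (hc : c ≠ 0)
    (g : M ≃ₐ[K] M) : (fun i => ∑ j, ι (g (A i j)) * c j) ≠ 0 := by
  intro h
  apply hc
  let φ : M →+* Ω := (ι : M →+* Ω).comp (g : M →+* M)
  refine Matrix.eq_zero_of_mulVec_eq_zero (M := A.map φ) ?_ h
  have h1 : (A.map φ).det = φ A.det := by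
    rw [RingHom.map_det]
    rfl
  rw [h1]
  exact (map_ne_zero φ).2 hA

end

/-- A combination with constant coefficients, at which finitely many linear forms do not vanish. -/
theorem exists_const {k Ω G : Type} [Field k] [CharZero k] [Field Ω] [Algebra k Ω] [Fintype G]
    {n : ℕ} (u : G → Fin n → Ω) (hu : ∀ g, u g ≠ 0) :
    ∃ a : Fin n → k, ∀ g, ∑ i, algebraMap k Ω (a i) * u g i ≠ 0 := by
  classical
  let R : MvPolynomial (Fin n) Ω := ∏ g : G, ∑ i, MvPolynomial.C (u g i) * MvPolynomial.X i
  have hR : R ≠ 0 := by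
    refine Finset.prod_ne_zero_iff.2 fun g _ h => ?_
    apply hu g
    funext i
    have h1 := congrArg (MvPolynomial.eval (Pi.single i (1 : Ω))) h
    rw [map_sum, map_zero] at h1
    simpa [Pi.single_apply] using h1
  by_contra hcon
  push Not at hcon
  apply hR
  refine MvPolynomial.funext_set (fun _ => Set.range (algebraMap k Ω))
    (fun _ => Set.infinite_range_of_injective (algebraMap k Ω).injective) fun x hx => ?_
  have hx' : ∀ i, ∃ a, algebraMap k Ω a = x i := fun i => hx i (Set.mem_univ i)
  choose a ha using hx'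
  obtain ⟨g, hg⟩ := hcon a
  rw [map_zero, map_prod]
  refine Finset.prod_eq_zero (Finset.mem_univ g) ?_
  rw [map_sum, ← hg]
  refine Finset.sum_congr rfl fun i _ => ?_
  rw [map_mul, MvPolynomial.eval_C, MvPolynomial.eval_X, ← ha, mul_comm]

end Pool.Agent.Y391.OB
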